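import Pool.Agent.Q5.DP.Law

/-! The descent from the fixed fields of the hyperelementary subgroups. -/

set_option autoImplicit false
set_option linter.unusedSectionVars false

namespace Pool.Agent.Q5.DP

open Module NumberField IsDedekindDomain Filter Pool.Agent.W353.NF Pool.Agent.W401.Cheb
  Pool.Agent.Q5.BR
open Pool.Agent.Q5.SO (Hyper)
open scoped Classical

theorem hyper_of_equiv {G H : Type} [Group G] [Group H] (e : G ≃* H) (h : Hyper G) : Hyper H := by
  obtain ⟨p, hp, C, hC, hcyc, hcard, hpow⟩ := h
  refine ⟨p, hp, C.map e.toMonoidHom, hC.map e.toMonoidHom e.surjective, ?_, ?_, fun g => ?_⟩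
  · exact (C.equivMapOfInjective e.toMonoidHom e.injective).isCyclic.1 hcyc
  · rw [← Nat.card_congr (C.equivMapOfInjective e.toMonoidHom e.injective).toEquiv]
    exact hcard
  · obtain ⟨k, hk⟩ := hpow (e.symm g)
    refine ⟨k, _, hk, ?_⟩
    change e (e.symm g ^ p ^ k) = _
    rw [map_pow, MulEquiv.apply_symm_apply]

/-- the relation between the subfields of a Galois extension -/
theorem hyper_relation (L : Type) [Field L] [NumberField L] (F : Type) [Field F] [NumberField F]
    [Algebra F L] [IsGalois F L] :
    ∃ (ι : Type) (_ : Fintype ι) (Y : ι → Ext F) (_ : ∀ j, Algebra (Y j).F L) (n : ι → ℤ),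
      (∀ j, Hyper (L ≃ₐ[(Y j).F] L)) ∧
      ∀ σ : GK F, ∑ j, n j * (fixn F (Y j).F σ : ℤ) = 1 := by
  have hfd : FiniteDimensional F L := by
    have : IsScalarTower ℚ F L := inferInstance
    exact FiniteDimensional.right ℚ F L
  let i : L →ₐ[F] AlgebraicClosure F := IsAlgClosed.lift
  let N : IntermediateField F (AlgebraicClosure F) := i.fieldRange
  let e : L ≃ₐ[F] N := AlgEquiv.ofInjectiveField i
  have hfdN : FiniteDimensional F N := LinearEquiv.finiteDimensional e.toLinearEquiv
  have hnor : Normal F N := Normal.of_algEquiv e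
  obtain ⟨ι, hι, B, n, hB, hrel⟩ := SO.solomon_relation N
  have hnf : ∀ j, NumberField (IntermediateField.fixedField (B j)) := fun j =>
    NumberField.of_module_finite F _
  let Y : ι → Ext F := fun j => @Ext.mk F _ _ (IntermediateField.fixedField (B j)) _ (hnf j) _
  let a : ∀ j, Algebra (Y j).F L := fun j =>
    ((e.symm : N →+* L).comp (algebraMap (IntermediateField.fixedField (B j)) N)).toAlgebra
  refine ⟨ι, hι, Y, a, n, fun j => ?_, hrel⟩
  refine hyper_of_equiv ?_ (hB j)
  -- the Galois groups
  let e₁ : B j ≃* (N ≃ₐ[IntermediateField.fixedField (B j)] N) :=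
    (MulEquiv.subgroupCongr (IntermediateField.fixingSubgroup_fixedField (B j)).symm).trans
      (IntermediateField.fixingSubgroupEquiv (IntermediateField.fixedField (B j)))
  let _ := a j
  let e₂ : N ≃ₐ[IntermediateField.fixedField (B j)] L :=
    AlgEquiv.ofRingEquiv (f := (e.symm : N ≃+* L)) fun x => rfl
  exact e₁.trans (AlgEquiv.autCongr e₂)

section
variable {E : Type} [Field E] [NumberField E] {M : Mot E}

/-- **The descent.** -/
theorem hyper_descent (hM : IsCritical M) (L : Type) [Field L] [NumberField L] [IsGalois ℚ L]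
    (h : ∀ (F : Type) [Field F] [NumberField F] [Algebra F L], Hyper (L ≃ₐ[F] L) → Deligne M F)
    (F : Type) [Field F] [NumberField F] [Algebra F L] : Deligne M F := by
  have hst : IsScalarTower ℚ F L := inferInstance
  have hgal : IsGalois F L := IsGalois.tower_top_of_isGalois ℚ F L
  have hPF := period_formula hM
  obtain ⟨ι, hι, Y, a, n, hY, hrel⟩ := hyper_relation L F
  have h1 := pow_step (K := ℚ) hPF hM.pure hM.wt (finrank_self ℚ) F trivial ι Y
    (fun _ => trivial) n 1 hrel 1 (fun j => by
    let _ := a j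
    exact (pow_one_iff hPF hM.pure hM.wt (Y j).F trivial).2 (h (Y j).F (hY j)))
  rw [one_mul] at h1
  exact (pow_one_iff hPF hM.pure hM.wt F trivial).1 h1

end

end Pool.Agent.Q5.DP
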