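import Pool.Agent.Q5.DP.Hyp

/-! Fixed embeddings in the algebraic numbers; relations and families of number fields. -/

set_option autoImplicit false
set_option linter.unusedSectionVars false

namespace Pool.Agent.Q5.DP

open Module NumberField IsDedekindDomain Filter Pool.Agent.W353.NF Pool.Agent.W401.Cheb
  Pool.Agent.Q5.BR
open scoped Classical

/-- the number of the embeddings of `F` in `Ω` that are fixed by `g` -/
noncomputable def fixed {Ω : Type} [Field Ω] (F : Type) [Field F] (g : Ω ≃+* Ω) : ℕ :=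
  Nat.card {i : F →+* Ω // ∀ x, g (i x) = i x}

section
variable {K : Type} [Field K] [NumberField K]

theorem fixn_fixed (hK : finrank ℚ K = 1) (F : Type) [Field F] [NumberField F] [Algebra K F]
    (σ : GK K) : fixn K F σ = fixed F (σ : AlgebraicClosure K ≃+* AlgebraicClosure K) := by
  unfold fixn fixed
  refine Nat.card_congr ⟨fun i => ⟨i.1, fun x => DFunLike.congr_fun i.2 x⟩,
    fun i => ⟨{ i.1 with commutes' := fun k => ?_ }, AlgHom.ext fun x => i.2 x⟩, fun i => rfl,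
    fun i => rfl⟩
  obtain ⟨q, rfl⟩ := rat_of_one hK k
  change i.1 (algebraMap K F q) = algebraMap K _ (q : K)
  rw [map_ratCast, map_ratCast, map_ratCast]

variable {E : Type} [Field E] [NumberField E] {M : Mot E}
  {T : ∀ (F : Type) [Field F] [NumberField F], Prop}

/-- **The relations.** -/
theorem quot_rel (hPF : PF M T) (hM : IsPure M) (hwt : M.wt ≤ -3) {ι : Type} [Fintype ι]
    {Z : ι → Type} [∀ j, Field (Z j)] [∀ j, NumberField (Z j)] (hT : ∀ j, T (Z j)) {n : ι → ℤ}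
    (h : ∀ g : AlgebraicClosure ℚ ≃+* AlgebraicClosure ℚ, ∑ j, n j * (fixed (Z j) g : ℤ) = 0)
    {ℓ c : ∀ _ : ι, (E →+* ℂ) → ℂ} (hℓ : ∀ j, IsValue M (Z j) (ℓ j))
    (hc : ∀ j, IsPeriod M (Z j) (c j)) :
    ∃ e : E, e ≠ 0 ∧ ∀ τ, ∏ j, (ℓ j τ / c j τ) ^ (n j) = τ e := by
  have h1 : ∀ g : GK ℚ, ∑ j, n j * (fixn ℚ (Z j) g : ℤ) = 0 := by
    intro g
    rw [← h (g : AlgebraicClosure ℚ ≃+* AlgebraicClosure ℚ)]
    refine Finset.sum_congr rfl fun j _ => ?_
    rw [fixn_fixed (finrank_self ℚ)]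
  obtain ⟨e₂, he₂, h2⟩ := period_rel hPF (finrank_self ℚ) hT h1 hc
  obtain ⟨e₁, he₁, h3⟩ := value_rel hM hwt (X := fun j => Ext.mk (K := ℚ) (Z j)) (n := n) h1 hℓ
  refine ⟨e₁ / e₂, div_ne_zero he₁ he₂, fun τ => ?_⟩
  rw [map_div₀, ← h2 τ, ← h3 τ, ← Finset.prod_div_distrib]
  exact Finset.prod_congr rfl fun j _ => div_zpow _ _ _

/-- families of number fields in `Ω` -/
def ExactS {Ω : Type} [Field Ω] (𝓕 : Set (Subfield Ω)) : Prop :=
  (∀ F ∈ 𝓕, NumberField F) ∧ (∀ F ∈ 𝓕, ∀ F' : Subfield Ω, Nonempty (F ≃+* F') → F' ∈ 𝓕) ∧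
  (∀ F ∈ 𝓕, ∀ F' ∈ 𝓕, F ⊔ F' ∈ 𝓕) ∧
  ∀ (g : Ω ≃+* Ω) (p : ℕ), p.Prime → ∃ F ∈ 𝓕, ¬ p ∣ fixed F g

/-- the relation in a family -/
theorem exactS_relation (hK : finrank ℚ K = 1) {𝓕 : Set (Subfield (AlgebraicClosure K))}
    (h : ExactS 𝓕) :
    ∃ (ι : Type) (_ : Fintype ι) (F : ι → IntermediateField K (AlgebraicClosure K)) (n : ι → ℤ),
      (∀ j, (F j).toSubfield ∈ 𝓕) ∧ ∀ σ : GK K, ∑ j, n j * (fixn K (F j) σ : ℤ) = 1 := by
  obtain ⟨hnf, hiso, hsup, hfix⟩ := h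
  have hfd : ∀ F : IntermediateField K (AlgebraicClosure K), F.toSubfield ∈ 𝓕 →
      FiniteDimensional K F := by
    intro F hF
    have h1 : NumberField F := hnf _ hF
    have : IsScalarTower ℚ K F := inferInstance
    exact FiniteDimensional.right ℚ K F
  refine SO.exact_relation (𝓕 := {F | F.toSubfield ∈ 𝓕}) ⟨hfd, ?_, ?_, ?_⟩
  · rintro F hF F' ⟨e⟩
    exact hiso _ hF _ ⟨(e : F ≃+* F')⟩
  · intro F hF F' hF'
    change (F ⊔ F').toSubfield ∈ 𝓕
    rw [IntermediateField.sup_toSubfield]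
    exact hsup _ hF _ hF'
  · intro σ p hp
    obtain ⟨F, hF, hd⟩ := hfix (σ : AlgebraicClosure K ≃+* AlgebraicClosure K) p hp
    let F' : IntermediateField K (AlgebraicClosure K) := F.toIntermediateField fun x => by
      obtain ⟨q, rfl⟩ := rat_of_one hK x
      rw [map_ratCast]
      exact SubfieldClass.ratCast_mem F q
    have hF' : F'.toSubfield ∈ 𝓕 := hF
    have : FiniteDimensional K F' := hfd F' hF'
    have : NumberField F' := hnf _ hF'
    refine ⟨F', hF', ?_⟩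
    rw [fixn_fixed hK]
    exact hd

end

end Pool.Agent.Q5.DP
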