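import Pool.Agent.Q5.DP.Fix

/-! Deligne's conjecture over families of number fields. -/

set_option autoImplicit false
set_option linter.unusedSectionVars false

namespace Pool.Agent.Q5.DP

open Module NumberField IsDedekindDomain Filter Pool.Agent.W353.NF Pool.Agent.W401.Cheb
  Pool.Agent.Q5.BR
open scoped Classical

/-- wide families of number fields in `Ω` -/
def WideS {Ω : Type} [Field Ω] (𝓕 : Set (Subfield Ω)) : Prop :=
  (∀ F ∈ 𝓕, NumberField F) ∧ (∀ F ∈ 𝓕, ∀ F' : Subfield Ω, NumberField F' → F ≤ F' → F' ∈ 𝓕) ∧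
  ∀ g : Ω ≃+* Ω, ∃ F ∈ 𝓕, ∀ x ∈ F, g x = x

section
variable {K : Type} [Field K] [NumberField K]

theorem wideS_wide (hK : finrank ℚ K = 1) {𝓕 : Set (Subfield (AlgebraicClosure K))}
    (h : WideS 𝓕) :
    HR.Wide {F : IntermediateField K (AlgebraicClosure K) | F.toSubfield ∈ 𝓕} := by
  obtain ⟨hnf, hup, hfix⟩ := h
  refine ⟨fun F hF => ?_, fun F hF F' hfd hle => ?_, fun σ => ?_⟩
  · have h1 : NumberField F := hnf _ hF
    have : IsScalarTower ℚ K F := inferInstance
    exact FiniteDimensional.right ℚ K F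
  · have h1 : NumberField F' := NumberField.of_module_finite K F'
    exact hup _ hF F'.toSubfield h1 hle
  · obtain ⟨F, hF, hd⟩ := hfix (σ : AlgebraicClosure K ≃+* AlgebraicClosure K)
    let F' : IntermediateField K (AlgebraicClosure K) := F.toIntermediateField fun x => by
      obtain ⟨q, rfl⟩ := rat_of_one hK x
      rw [map_ratCast]
      exact SubfieldClass.ratCast_mem F q
    exact ⟨F', hF, hd⟩

variable {P : ∀ (F : Type) [Field F] [NumberField F] [Algebra K F], ℤ → Prop}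

/-- **The exact law.** -/
theorem exactS_law (hK : finrank ℚ K = 1) {𝓕 : Set (Subfield (AlgebraicClosure K))}
    (h : ExactS 𝓕) (hP : VL.IsLaw P)
    (h1 : ∀ F : IntermediateField K (AlgebraicClosure K), F.toSubfield ∈ 𝓕 →
      ∀ [NumberField F], P F 1) : P K 1 := by
  obtain ⟨ι, _, F, n, hF, hrel⟩ := exactS_relation hK h
  have hnf : ∀ j, NumberField (F j) := fun j => h.1 _ (hF j)
  let Y : ι → Ext K := fun j => @Ext.mk K _ _ (F j) _ (hnf j) _
  have h2 := hP.step K ι Y n 1 hrel 1 (fun j => h1 (F j) (hF j))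
  rwa [one_mul] at h2

end

section
variable {E : Type} [Field E] [NumberField E] {M : Mot E}

theorem deligne_exact (hM : IsCritical M) {𝓕 : Set (Subfield (AlgebraicClosure ℚ))}
    (h : ExactS 𝓕) (h1 : ∀ F ∈ 𝓕, ∀ [NumberField F], Deligne M F) : Deligne M ℚ := by
  have hPF := period_formula hM
  refine (pow_one_iff hPF hM.pure hM.wt ℚ trivial).1 ?_
  refine exactS_law (K := ℚ) (finrank_self ℚ) h (isLaw hPF hM.pure hM.wt (finrank_self ℚ)) ?_
  intro F hF hnf
  exact (pow_one_iff hPF hM.pure hM.wt F trivial).2 (h1 _ hF)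

theorem deligne_wide (hM : IsCritical M) {𝓕 : Set (Subfield (AlgebraicClosure ℚ))}
    (h : WideS 𝓕) (h1 : ∀ F ∈ 𝓕, ∀ [NumberField F], Deligne M F) :
    ∃ m : ℕ, 0 < m ∧ Pow M ℚ m := by
  have hPF := period_formula hM
  obtain ⟨m, hm, hlaw⟩ := VL.wide_law (K := ℚ) (wideS_wide (finrank_self ℚ) h)
  refine ⟨m, hm, ?_⟩
  have h2 := hlaw _ (isLaw hPF hM.pure hM.wt (finrank_self ℚ)) 1 (by
    intro F hF hnf
    exact (pow_one_iff hPF hM.pure hM.wt F trivial).2 (h1 _ hF))
  rwa [mul_one] at h2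

theorem deligne_degree (hM : IsCritical M) {N : ℕ}
    (h : ∀ (F : Type) [Field F] [NumberField F], N ∣ finrank ℚ F → Deligne M F)
    (F : Type) [Field F] [NumberField F] : Pow M F ((N / N.gcd (finrank ℚ F) : ℕ) : ℤ) := by
  have hPF := period_formula hM
  have h2 := VL.gen_power_law' (K := ℚ) (M := N) (isLaw hPF hM.pure hM.wt (finrank_self ℚ)) (by
    intro F' _ _ a hN
    obtain rfl : a = DivisionRing.toRatAlgebra := Subsingleton.elim _ _
    exact (pow_one_iff hPF hM.pure hM.wt F' trivial).2 (h F' hN)) F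
  exact h2

theorem deligne_sparse (hM : IsCritical M) {D : Set ℕ}
    (hD : ∀ d ∈ D, ∀ n : ℕ, 0 < n → d * n ∈ D) (hD' : ∀ g : ℕ, (∀ d ∈ D, g ∣ d) → g = 1)
    (h : ∀ (F : Type) [Field F] [NumberField F], finrank ℚ F ∈ D → Deligne M F)
    (F : Type) [Field F] [NumberField F] : Deligne M F := by
  have hPF := period_formula hM
  refine (pow_one_iff hPF hM.pure hM.wt F trivial).1 ?_
  refine VL.gen_sparse_law (K := ℚ) (isLaw hPF hM.pure hM.wt (finrank_self ℚ)) hD hD' ?_ F
  intro F' _ _ a hN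
  obtain rfl : a = DivisionRing.toRatAlgebra := Subsingleton.elim _ _
  exact (pow_one_iff hPF hM.pure hM.wt F' trivial).2 (h F' hN)

end

end Pool.Agent.Q5.DP
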