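import Pool.Agent.Q5.DP.Mot
import Pool.Agent.Q5.VL.Sys
import Pool.Agent.Q5.VL.Rel

/-! The values of the L-functions of a motive over the fields in a relation. -/

set_option autoImplicit false
set_option linter.unusedSectionVars false

namespace Pool.Agent.Q5.DP

open Module NumberField IsDedekindDomain Filter Pool.Agent.W353.NF Pool.Agent.W401.Cheb
  Pool.Agent.Q5.BR
open scoped Classical

section
variable {F : Type} [Field F] [NumberField F]

theorem exists_pk (v : HeightOneSpectrum (𝓞 F)) :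
    ∃ p k : ℕ, p.Prime ∧ 0 < k ∧ Ideal.absNorm v.asIdeal = p ^ k := by
  have h1 : (v.asIdeal).IsMaximal := v.isMaximal
  let _ : Field (𝓞 F ⧸ v.asIdeal) := Ideal.Quotient.field v.asIdeal
  have h2 : Finite (𝓞 F ⧸ v.asIdeal) := Ring.HasFiniteQuotients.finiteQuotient v.ne_bot
  have : Fintype (𝓞 F ⧸ v.asIdeal) := Fintype.ofFinite _
  obtain ⟨p, k, hp, hk, h⟩ := Fintype.isPrimePow_card_of_field (α := 𝓞 F ⧸ v.asIdeal)
  refine ⟨p, k, hp.nat_prime, hk, ?_⟩
  rw [h, Ideal.absNorm_apply, Submodule.cardQuot_apply, Nat.card_eq_fintype_card]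

theorem pk_unique {p k q l : ℕ} (hp : p.Prime) (hk : 0 < k) (hq : q.Prime)
    (h : p ^ k = q ^ l) : p = q ∧ k = l := by
  have h1 : p ∣ q ^ l := by
    rw [← h]
    exact dvd_pow_self p hk.ne'
  have h2 : p = q := (Nat.prime_dvd_prime_iff_eq hp hq).1 (hp.dvd_of_dvd_pow h1)
  subst h2
  exact ⟨rfl, Nat.pow_right_injective hp.two_le h⟩

theorem cof {S : Set ℕ} (hS : S.Finite) : ∀ᶠ v : HeightOneSpectrum (𝓞 F) in cofinite,
    ∀ p k : ℕ, p.Prime → Ideal.absNorm v.asIdeal = p ^ k → p ∉ S := by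
  rw [eventually_cofinite]
  have h1 : ∀ p : ℕ, p.Prime → {v : HeightOneSpectrum (𝓞 F) | (p : 𝓞 F) ∈ v.asIdeal}.Finite := by
    intro p hp
    exact Pool.Agent.H341R2.EC.finite_mem (K := F) (by exact_mod_cast hp.ne_zero)
  have h2 : (⋃ p ∈ {p ∈ S | p.Prime}, {v : HeightOneSpectrum (𝓞 F) |
      (p : 𝓞 F) ∈ v.asIdeal}).Finite :=
    Set.Finite.biUnion (hS.subset fun p hp => hp.1) fun p hp => h1 p hp.2
  refine h2.subset fun v hv => ?_
  have hv' : ¬ ∀ p k : ℕ, p.Prime → Ideal.absNorm v.asIdeal = p ^ k → p ∉ S := hv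
  push Not at hv'
  obtain ⟨p, k, hp, h3, h4⟩ := hv'
  simp only [Set.mem_iUnion]
  refine ⟨p, ⟨h4, hp⟩, ?_⟩
  have h5 : ((Ideal.absNorm v.asIdeal : ℕ) : 𝓞 F) ∈ v.asIdeal := Ideal.absNorm_mem _
  rw [h3] at h5
  push_cast at h5
  exact v.isPrime.mem_of_pow_mem k h5

end

section
variable {E : Type} [Field E] [NumberField E] {M : Mot E}

/-- the good primes -/
theorem good (hM : IsPure M) : ∃ S : Finset ℕ, ∀ p ∉ S, p.Prime → ∀ τ : E →+* ℂ,
    ∃ α : Fin (finrank E M.V) → ℂ, (∀ j, ‖α j‖ = (p : ℝ) ^ ((M.wt : ℝ) / 2)) ∧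
    ∀ f, τ ((M.P p f).eval 1) = ∏ j, (1 - α j ^ f) := by
  unfold IsPure at hM
  rw [eventually_cofinite] at hM
  refine ⟨hM.toFinset, fun p hp hpr τ => ?_⟩
  have h1 : ¬ p ∈ {x : ℕ | ¬ (x.Prime → ∀ τ : E →+* ℂ, ∃ α : Fin (finrank E M.V) → ℂ,
    (∀ j, ‖α j‖ = (x : ℝ) ^ ((M.wt : ℝ) / 2)) ∧
    ∀ f, (M.P x f).map τ = ∏ j, (1 - Polynomial.C (α j ^ f) * Polynomial.X))} := fun h =>
      hp ((Set.Finite.mem_toFinset hM).2 h)
  have h2 := not_not.1 h1
  obtain ⟨α, h3, h4⟩ := h2 hpr τ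
  refine ⟨α, h3, fun f => ?_⟩
  have h5 := congrArg (fun Q : Polynomial ℂ => Q.eval 1) (h4 f)
  simp only [Polynomial.eval_prod, Polynomial.eval_sub, Polynomial.eval_one, Polynomial.eval_mul,
    Polynomial.eval_C, Polynomial.eval_X, mul_one] at h5
  rw [← h5, Polynomial.eval_map, Polynomial.eval₂_at_one]

theorem bound {p k : ℕ} (hp : p.Prime) (hwt : M.wt ≤ -3) {n : ℕ} {α : Fin n → ℂ}
    (h : ∀ j, ‖α j‖ = (p : ℝ) ^ ((M.wt : ℝ) / 2)) :
    ‖∏ j, (1 - α j ^ k) - 1‖ ≤ (n * Real.exp n) * ((p ^ k : ℕ) : ℝ) ^ (-(3 / 2) : ℝ) := by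
  have hp1 : (1 : ℝ) ≤ p := by exact_mod_cast hp.one_lt.le
  have hp0 : (0 : ℝ) < p := by linarith
  have h1 : ∀ j, ‖α j ^ k * 1‖ = ((p ^ k : ℕ) : ℝ) ^ ((M.wt : ℝ) / 2) := by
    intro j
    rw [mul_one, norm_pow, h j, ← Real.rpow_natCast, ← Real.rpow_mul hp0.le, Nat.cast_pow,
      ← Real.rpow_natCast, ← Real.rpow_mul hp0.le, mul_comm]
  have hpk : (1 : ℝ) ≤ ((p ^ k : ℕ) : ℝ) := by
    push_cast
    exact one_le_pow₀ hp1
  have hwt' : (M.wt : ℝ) / 2 ≤ -(3 / 2) := by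
    have : (M.wt : ℝ) ≤ -3 := by exact_mod_cast hwt
    linarith
  have h2 : ((p ^ k : ℕ) : ℝ) ^ ((M.wt : ℝ) / 2) ≤ ((p ^ k : ℕ) : ℝ) ^ (-(3 / 2) : ℝ) :=
    Real.rpow_le_rpow_of_exponent_le hpk hwt'
  have h3 : ((p ^ k : ℕ) : ℝ) ^ (-(3 / 2) : ℝ) ≤ 1 :=
    Real.rpow_le_one_of_one_le_of_nonpos hpk (by norm_num)
  have h4 := VL.prod_bound (α := fun j => α j ^ k) (z := 1) h1 (h2.trans h3)
  simp only [mul_one] at h4
  refine h4.trans ?_
  have : (0 : ℝ) ≤ n * Real.exp n := mul_nonneg (Nat.cast_nonneg n) (Real.exp_pos _).le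
  exact mul_le_mul_of_nonneg_left h2 this

theorem prod_ne {p k : ℕ} (hp : p.Prime) (hk : 0 < k) (hwt : M.wt ≤ -3) {n : ℕ} {α : Fin n → ℂ}
    (h : ∀ j, ‖α j‖ = (p : ℝ) ^ ((M.wt : ℝ) / 2)) : ∏ j, (1 - α j ^ k) ≠ 0 := by
  refine Finset.prod_ne_zero_iff.2 fun j _ h0 => ?_
  have h1 : α j ^ k = 1 := (sub_eq_zero.1 h0).symm
  have h2 : ‖α j‖ ^ k = 1 := by rw [← norm_pow, h1, norm_one]
  have hp1 : (1 : ℝ) < p := by exact_mod_cast hp.one_lt
  have h3 : ‖α j‖ < 1 := by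
    rw [h j]
    apply Real.rpow_lt_one_of_one_lt_of_neg hp1
    have : (M.wt : ℝ) ≤ -3 := by exact_mod_cast hwt
    linarith
  have h4 : ‖α j‖ ^ k < 1 := pow_lt_one₀ (norm_nonneg _) h3 hk.ne'
  linarith

/-- the Euler factors -/
def IsFactors (M : Mot E) (F : Type) [Field F] [NumberField F]
    (b : HeightOneSpectrum (𝓞 F) → E) : Prop :=
  (∀ᶠ v in Filter.cofinite, ∀ p f : ℕ, p.Prime → Ideal.absNorm v.asIdeal = p ^ f →
      b v = (M.P p f).eval 1) ∧ ∀ v, b v ≠ 0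

theorem exists_factors (hM : IsPure M) (hwt : M.wt ≤ -3) (F : Type) [Field F] [NumberField F] :
    ∃ b, IsFactors M F b := by
  obtain ⟨S, hS⟩ := good hM
  choose P k hP hk hPk using exists_pk (F := F)
  refine ⟨fun v => if P v ∈ S then 1 else (M.P (P v) (k v)).eval 1, ?_, fun v => ?_⟩
  · filter_upwards [cof (F := F) S.finite_toSet] with v hv p f hp hf
    obtain ⟨rfl, rfl⟩ := pk_unique (hP v) (hk v) hp ((hPk v).symm.trans hf)
    exact if_neg fun h => hv _ _ (hP v) (hPk v) h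
  · change (if P v ∈ S then 1 else (M.P (P v) (k v)).eval 1) ≠ 0
    split_ifs with h
    · exact one_ne_zero
    · obtain ⟨τ⟩ : Nonempty (E →+* ℂ) := inferInstance
      obtain ⟨α, h1, h2⟩ := hS _ h (hP v) τ
      intro h0
      have h3 := h2 (k v)
      rw [h0, map_zero] at h3
      exact prod_ne (hP v) (hk v) hwt h1 h3.symm

variable {F : Type} [Field F] [NumberField F]

/-- the convergence -/
theorem summable_factors (hM : IsPure M) (hwt : M.wt ≤ -3) {b : HeightOneSpectrum (𝓞 F) → E}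
    (hb : IsFactors M F b) (τ : E →+* ℂ) : Summable fun v => -Complex.log (τ (b v)) := by
  obtain ⟨S, hS⟩ := good hM
  have h1 : Summable fun v : HeightOneSpectrum (𝓞 F) => (finrank E M.V * Real.exp (finrank E M.V)) *
      (Ideal.absNorm v.asIdeal : ℝ) ^ (-(3 / 2) : ℝ) :=
    (Pool.Agent.H921R2.TatePole.nm_summable (K := F) (x := 3 / 2) (by norm_num)).mul_left _
  have h2 : Summable fun v : HeightOneSpectrum (𝓞 F) => τ (b v) - 1 := by
    refine Summable.of_norm_bounded_eventually h1 ?_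
    filter_upwards [cof (F := F) S.finite_toSet, hb.1] with v hv hbv
    obtain ⟨p, k, hp, hk, hpk⟩ := exists_pk v
    obtain ⟨α, h3, h4⟩ := hS p (fun h => hv p k hp hpk h) hp τ
    rw [hbv p k hp hpk, h4, hpk]
    exact bound hp hwt h3
  have h3 := Complex.summable_log_one_add_of_summable h2
  simp only [add_sub_cancel] at h3
  exact h3.neg

theorem value_exp (hM : IsPure M) (hwt : M.wt ≤ -3) {b : HeightOneSpectrum (𝓞 F) → E}
    (hb : IsFactors M F b) (τ : E →+* ℂ) :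
    ∏' v, (τ (b v))⁻¹ = Complex.exp (∑' v, -Complex.log (τ (b v))) := by
  rw [← (summable_factors hM hwt hb τ).hasSum.cexp.tprod_eq]
  refine tprod_congr fun w => ?_
  change _ = Complex.exp (-Complex.log (τ (b w)))
  rw [Complex.exp_neg, Complex.exp_log]
  intro h0
  exact hb.2 w (τ.injective (by rw [h0, map_zero]))

theorem value_ne (hM : IsPure M) (hwt : M.wt ≤ -3) {ℓ : (E →+* ℂ) → ℂ} (h : IsValue M F ℓ)
    (τ : E →+* ℂ) : ℓ τ ≠ 0 := by
  obtain ⟨b, h1, h2, h3⟩ := h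
  rw [h3, value_exp hM hwt ⟨h1, h2⟩]
  exact Complex.exp_ne_zero _

theorem exists_value (hM : IsPure M) (hwt : M.wt ≤ -3) (F : Type) [Field F] [NumberField F] :
    ∃ ℓ, IsValue M F ℓ := by
  obtain ⟨b, hb⟩ := exists_factors hM hwt F
  exact ⟨_, b, hb.1, hb.2, fun τ => rfl⟩

/-- **The values of the L-functions in a relation.** -/
theorem value_rel (hM : IsPure M) (hwt : M.wt ≤ -3) {ι : Type} [Fintype ι] {X : ι → Ext F}
    {n : ι → ℤ} (hrel : Rel X n) {ℓ : ∀ _ : ι, (E →+* ℂ) → ℂ}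
    (hℓ : ∀ j, IsValue M (X j).F (ℓ j)) :
    ∃ e : E, e ≠ 0 ∧ ∀ τ, ∏ j, (ℓ j τ) ^ (n j) = τ e := by
  choose b hb hb0 hbℓ using hℓ
  obtain ⟨S₀, hS₀⟩ := euler_rel hrel
  have hbj' := fun j => hb j
  simp only [eventually_cofinite] at hbj'
  have hfin : ∀ j, ((fun w : HeightOneSpectrum (𝓞 (X j).F) => w.under (𝓞 F)) ''
      {w | ¬ ∀ p f : ℕ, p.Prime → Ideal.absNorm w.asIdeal = p ^ f →
      b j w = (M.P p f).eval 1}).Finite := fun j => (hbj' j).image _
  set S : Finset (HeightOneSpectrum (𝓞 F)) := S₀ ∪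
    Finset.univ.biUnion fun j => (hfin j).toFinset with hS
  choose P k hP hk hPk using exists_pk (F := F)
  refine ⟨∏ v ∈ S, ∏ j, (∏ w ∈ above (X j).F v, (b j w)⁻¹) ^ (n j), ?_, fun τ => ?_⟩
  · refine Finset.prod_ne_zero_iff.2 fun v _ => Finset.prod_ne_zero_iff.2 fun j _ =>
      zpow_ne_zero _ (Finset.prod_ne_zero_iff.2 fun w _ => inv_ne_zero (hb0 j w))
  have h1 := hS₀ S Finset.subset_union_left (fun j w => -Complex.log (τ (b j w)))
    (fun v f => -Complex.log (τ ((M.P (P v) (k v * f)).eval 1)))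
    (fun j => summable_factors hM hwt ⟨hb j, hb0 j⟩ τ) (by
      intro j w hw
      have hw' : ∀ p f : ℕ, p.Prime → Ideal.absNorm w.asIdeal = p ^ f →
          b j w = (M.P p f).eval 1 := by
        by_contra hcon
        apply hw
        rw [hS]
        apply Finset.mem_union_right
        rw [Finset.mem_biUnion]
        refine ⟨j, Finset.mem_univ j, ?_⟩
        rw [Set.Finite.mem_toFinset]
        exact ⟨w, hcon, rfl⟩
      change -Complex.log (τ (b j w)) = -Complex.log (τ ((M.P (P (w.under (𝓞 F)))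
        (k (w.under (𝓞 F)) * rdeg F w)).eval 1))
      rw [hw' (P (w.under (𝓞 F))) (k (w.under (𝓞 F)) * rdeg F w) (hP _) (by
        rw [absNorm_rdeg (K := F) w, hPk, ← pow_mul])])
  have h2 := congrArg Complex.exp h1
  rw [Complex.exp_sum, Complex.exp_sum] at h2
  have hexp : ∀ j w, Complex.exp (-Complex.log (τ (b j w))) = (τ (b j w))⁻¹ := by
    intro j w
    rw [Complex.exp_neg, Complex.exp_log]
    intro h0
    exact hb0 j w (τ.injective (by rw [h0, map_zero]))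
  have h4 : ∀ j, Complex.exp ((n j : ℂ) * ∑' w, -Complex.log (τ (b j w))) = (ℓ j τ) ^ (n j) := by
    intro j
    rw [Complex.exp_int_mul, hbℓ, value_exp hM hwt ⟨hb j, hb0 j⟩]
  rw [Finset.prod_congr rfl fun j _ => h4 j] at h2
  rw [h2, map_prod]
  refine Finset.prod_congr rfl fun v _ => ?_
  rw [Complex.exp_sum, map_prod]
  refine Finset.prod_congr rfl fun j _ => ?_
  rw [Complex.exp_int_mul, Complex.exp_sum, map_zpow₀, map_prod]
  congr 1
  refine Finset.prod_congr rfl fun w _ => ?_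
  rw [hexp, map_inv₀]

end

end Pool.Agent.Q5.DP
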