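import Pool.Agent.Q5.DP.LVal
import Pool.Agent.Q5.VL.Abs
import Pool.Agent.Q5.SO.Field

/-! Deligne's conjecture is compatible with the relations between number fields. -/

set_option autoImplicit false
set_option linter.unusedSectionVars false

namespace Pool.Agent.Q5.DP

open Module NumberField IsDedekindDomain Filter Pool.Agent.W353.NF Pool.Agent.W401.Cheb
  Pool.Agent.Q5.BR
open scoped Classical

section
variable {E : Type} [Field E] [NumberField E] {M : Mot E}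
variable {K : Type} [Field K] [NumberField K]

theorem zpow_prod {ι : Type} (s : Finset ι) (x : ℂ) (hx : x ≠ 0) (f : ι → ℤ) :
    ∏ j ∈ s, x ^ (f j) = x ^ (∑ j ∈ s, f j) := by
  induction s using Finset.induction_on with
  | empty => simp
  | insert a s ha ih => rw [Finset.prod_insert ha, Finset.sum_insert ha, zpow_add₀ hx, ih]

variable {T : ∀ (F : Type) [Field F] [NumberField F], Prop}

/-- **The periods in a relation.** -/
theorem period_rel (hPF : PF M T) (hK : finrank ℚ K = 1) {ι : Type} [Fintype ι] {Z : ι → Type}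
    [∀ j, Field (Z j)] [∀ j, NumberField (Z j)] [∀ j, Algebra K (Z j)] (hT : ∀ j, T (Z j))
    {n : ι → ℤ} (h : ∀ g : GK K, ∑ j, n j * (fixn K (Z j) g : ℤ) = 0)
    {c : ∀ _ : ι, (E →+* ℂ) → ℂ} (hc : ∀ j, IsPeriod M (Z j) (c j)) :
    ∃ e : E, e ≠ 0 ∧ ∀ τ, ∏ j, (c j τ) ^ (n j) = τ e := by
  obtain ⟨Ap, Am, hAp, hAm, hF⟩ := hPF
  choose e θ a b he hab hab' hfor using fun j => (hF (Z j) (hT j)).2 (c j) (hc j)
  obtain ⟨q, hq, hδ⟩ := delta_rel hK h θ
  have h1 := real_rel hK h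
  have h2 := deg_rel hK h
  have ha : ∑ j, n j * (a j : ℤ) = 0 := by
    have h3 : ∑ j, n j * (a j : ℤ) + ∑ j, n j * (b j : ℤ) = 0 := by
      rw [← h2, ← Finset.sum_add_distrib]
      refine Finset.sum_congr rfl fun j _ => ?_
      rw [← hab j]
      push_cast
      ring
    have h4 : ∑ j, n j * (a j : ℤ) - ∑ j, n j * (b j : ℤ) = 0 := by
      rw [← h1, ← Finset.sum_sub_distrib]
      refine Finset.sum_congr rfl fun j _ => ?_
      rw [hab' j]
      push_cast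
      ring
    linarith
  have hb : ∑ j, n j * (b j : ℤ) = 0 := by
    have h3 : ∑ j, n j * (a j : ℤ) + ∑ j, n j * (b j : ℤ) = 0 := by
      rw [← h2, ← Finset.sum_add_distrib]
      refine Finset.sum_congr rfl fun j _ => ?_
      rw [← hab j]
      push_cast
      ring
    linarith
  refine ⟨(∏ j, (e j) ^ (n j)) * ((q : E) ^ M.d)⁻¹, mul_ne_zero (Finset.prod_ne_zero_iff.2
    fun j _ => zpow_ne_zero _ (he j)) (inv_ne_zero (pow_ne_zero _ (by exact_mod_cast hq))),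
    fun τ => ?_⟩
  have h5 : ∏ j, (delta (Z j) (θ j) ^ M.d * c j τ) ^ (n j) = τ (∏ j, (e j) ^ (n j)) := by
    have h6 : ∀ j, (delta (Z j) (θ j) ^ M.d * c j τ) ^ (n j) =
        τ ((e j) ^ (n j)) * (Ap τ ^ (n j * (a j : ℤ)) * Am τ ^ (n j * (b j : ℤ))) := by
      intro j
      rw [hfor j τ, mul_zpow, mul_zpow, map_zpow₀, ← zpow_natCast, ← zpow_natCast, ← zpow_mul,
        ← zpow_mul, mul_comm (a j : ℤ), mul_comm (b j : ℤ)]
    rw [Finset.prod_congr rfl fun j _ => h6 j, Finset.prod_mul_distrib, Finset.prod_mul_distrib,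
      zpow_prod _ _ (hAp τ), zpow_prod _ _ (hAm τ), ha, hb, zpow_zero, zpow_zero, mul_one, mul_one,
      map_prod]
  have h7 : ∏ j, (delta (Z j) (θ j) ^ M.d * c j τ) ^ (n j) =
      (q : ℂ) ^ M.d * ∏ j, (c j τ) ^ (n j) := by
    rw [← hδ, ← Finset.prod_pow, ← Finset.prod_mul_distrib]
    refine Finset.prod_congr rfl fun j _ => ?_
    rw [mul_zpow, ← zpow_natCast, ← zpow_natCast, ← zpow_mul, ← zpow_mul, mul_comm (n j)]
  rw [h7] at h5
  have hq0 : (q : ℂ) ^ M.d ≠ 0 := pow_ne_zero _ (by exact_mod_cast hq)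
  rw [map_mul, ← h5, map_inv₀, map_pow, map_ratCast, mul_comm, inv_mul_cancel_left₀ hq0]

theorem period_ne (hPF : PF M T) {F : Type} [Field F] [NumberField F] (hT : T F)
    {c : (E →+* ℂ) → ℂ} (hc : IsPeriod M F c) (τ : E →+* ℂ) : c τ ≠ 0 := by
  obtain ⟨Ap, Am, hAp, hAm, hF⟩ := hPF
  obtain ⟨e, θ, a, b, he, -, -, h⟩ := (hF F hT).2 c hc
  intro h0
  have h1 := h τ
  rw [h0, mul_zero] at h1
  exact mul_ne_zero (fun h2 => he (τ.injective (by rw [h2, map_zero])))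
    (mul_ne_zero (pow_ne_zero _ (hAp τ)) (pow_ne_zero _ (hAm τ))) h1.symm

/-- Deligne's conjecture, with an exponent -/
def Pow (M : Mot E) (F : Type) [Field F] [NumberField F] (t : ℤ) : Prop :=
  ∀ ℓ c, IsValue M F ℓ → IsPeriod M F c → ∃ e : E, e ≠ 0 ∧ ∀ τ, (ℓ τ / c τ) ^ t = τ e

theorem pow_one_iff (hPF : PF M T) (hM : IsPure M) (hwt : M.wt ≤ -3) (F : Type) [Field F]
    [NumberField F] (hT : T F) : Pow M F 1 ↔ Deligne M F := by
  constructor
  · intro h ℓ c hℓ hc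
    obtain ⟨e, -, he⟩ := h ℓ c hℓ hc
    refine ⟨e, fun τ => ?_⟩
    rw [← he, zpow_one, div_mul_cancel₀ _ (period_ne hPF hT hc τ)]
  · intro h ℓ c hℓ hc
    obtain ⟨e, he⟩ := h ℓ c hℓ hc
    refine ⟨e, ?_, fun τ => ?_⟩
    · rintro rfl
      obtain ⟨τ⟩ : Nonempty (E →+* ℂ) := inferInstance
      have h1 := he τ
      rw [map_zero, zero_mul] at h1
      exact value_ne hM hwt hℓ τ h1
    · rw [zpow_one, he, mul_div_cancel_right₀ _ (period_ne hPF hT hc τ)]

/-- the step, for a relation over `F` -/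
theorem pow_step (hPF : PF M T) (hM : IsPure M) (hwt : M.wt ≤ -3) (hK : finrank ℚ K = 1)
    (F : Type) [Field F] [NumberField F] (hT : T F)
    [Algebra K F] (ι : Type) [Fintype ι] (Y : ι → Ext F) (hY : ∀ j, T (Y j).F)
    [∀ j, Algebra K (Y j).F] [∀ j, IsScalarTower K F (Y j).F] (n : ι → ℤ) (m : ℤ)
    (hrel : ∀ σ : GK F, ∑ j, n j * (fixn F (Y j).F σ : ℤ) = m) (t : ℤ)
    (h : ∀ j, Pow M (Y j).F t) : Pow M F (m * t) := by
  intro ℓ c hℓ hc
  choose ℓ' hℓ' using fun j => exists_value hM hwt (Y j).F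
  have hex : ∀ j, ∃ c, IsPeriod M (Y j).F c := by
    obtain ⟨Ap, Am, hAp, hAm, hF⟩ := hPF
    exact fun j => (hF (Y j).F (hY j)).1
  choose c' hc' using hex
  choose e he he' using fun j => h j (ℓ' j) (c' j) (hℓ' j) (hc' j)
  -- the L-values
  let Y' : Option ι → Ext F := fun o => o.elim (Ext.mk F) Y
  let n' : Option ι → ℤ := fun o => o.elim (-m) n
  have hrel' : Rel Y' n' := by
    intro σ
    rw [Fintype.sum_option]
    change (-m) * (fixn F F σ : ℤ) + ∑ j, n j * (fixn F (Y j).F σ : ℤ) = 0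
    rw [hrel σ, fixn_self]
    push_cast
    ring
  let ℓ'' : Option ι → (E →+* ℂ) → ℂ := fun o => o.elim ℓ ℓ'
  obtain ⟨e₁, he₁, h1⟩ := value_rel hM hwt hrel' (ℓ := ℓ'') (by
    rintro (_ | j)
    · exact hℓ
    · exact hℓ' j)
  -- the periods
  let _ : ∀ o : Option ι, Algebra K (Y' o).F := fun o => match o with
    | none => (inferInstance : Algebra K F)
    | some j => (inferInstance : Algebra K (Y j).F)
  let c'' : Option ι → (E →+* ℂ) → ℂ := fun o => o.elim c c'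
  obtain ⟨e₂, he₂, h2⟩ := period_rel hPF hK (Z := fun o => (Y' o).F) (by
    rintro (_ | j)
    · exact hT
    · exact hY j) (n := n') (c := c'') (by
    intro g
    rw [Fintype.sum_option]
    change (-m) * (fixn K F g : ℤ) + ∑ j, n j * (fixn K (Y j).F g : ℤ) = 0
    rw [VL.rel_up hrel g]
    ring) (by
    rintro (_ | j)
    · exact hc
    · exact hc' j)
  refine ⟨(e₂ / e₁) ^ t * ∏ j, (e j) ^ (n j), mul_ne_zero (zpow_ne_zero _ (div_ne_zero he₂ he₁))
    (Finset.prod_ne_zero_iff.2 fun j _ => zpow_ne_zero _ (he j)), fun τ => ?_⟩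
  have h3 := h1 τ
  have h4 := h2 τ
  rw [Fintype.prod_option] at h3 h4
  change (ℓ τ) ^ (-m) * ∏ j, (ℓ' j τ) ^ (n j) = τ e₁ at h3
  change (c τ) ^ (-m) * ∏ j, (c' j τ) ^ (n j) = τ e₂ at h4
  have hℓ0 : ℓ τ ≠ 0 := value_ne hM hwt hℓ τ
  have hc0 : c τ ≠ 0 := period_ne hPF hT hc τ
  have hτ1 : τ e₁ ≠ 0 := fun h0 => he₁ (τ.injective (by rw [h0, map_zero]))
  have hτ2 : τ e₂ ≠ 0 := fun h0 => he₂ (τ.injective (by rw [h0, map_zero]))
  have h5 : (ℓ τ / c τ) ^ m = (τ e₂ / τ e₁) * ∏ j, (ℓ' j τ / c' j τ) ^ (n j) := by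
    have h6 : ∏ j, (ℓ' j τ / c' j τ) ^ (n j) =
        (∏ j, (ℓ' j τ) ^ (n j)) / ∏ j, (c' j τ) ^ (n j) := by
      rw [← Finset.prod_div_distrib]
      exact Finset.prod_congr rfl fun j _ => div_zpow _ _ _
    have h7 : ∏ j, (ℓ' j τ) ^ (n j) = τ e₁ * (ℓ τ) ^ m := by
      rw [← h3, zpow_neg]
      field_simp
    have h8 : ∏ j, (c' j τ) ^ (n j) = τ e₂ * (c τ) ^ m := by
      rw [← h4, zpow_neg]
      field_simp
    rw [h6, h7, h8, div_zpow]
    have := zpow_ne_zero m hc0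
    field_simp
  rw [zpow_mul, h5, mul_zpow, map_mul, map_zpow₀, map_div₀, map_prod]
  congr 1
  rw [← Finset.prod_zpow]
  refine Finset.prod_congr rfl fun j _ => ?_
  rw [← zpow_mul, mul_comm, zpow_mul, he' j τ, map_zpow₀]

/-- **Deligne's conjecture is a law.** -/
theorem isLaw (hPF : PF M (fun _ _ _ => True)) (hM : IsPure M) (hwt : M.wt ≤ -3)
    (hK : finrank ℚ K = 1) : VL.IsLaw (K := K) (fun F _ _ _ t => Pow M F t) where
  zero := fun F _ _ _ ℓ c _ _ => ⟨1, one_ne_zero, fun τ => by rw [zpow_zero, map_one]⟩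
  add := by
    intro F _ _ _ t u ht hu ℓ c hℓ hc
    obtain ⟨e, he, h1⟩ := ht ℓ c hℓ hc
    obtain ⟨e', he', h2⟩ := hu ℓ c hℓ hc
    refine ⟨e * e', mul_ne_zero he he', fun τ => ?_⟩
    rw [zpow_add₀ (div_ne_zero (value_ne hM hwt hℓ τ) (period_ne hPF trivial hc τ)), h1, h2,
      map_mul]
  neg := by
    intro F _ _ _ t ht ℓ c hℓ hc
    obtain ⟨e, he, h1⟩ := ht ℓ c hℓ hc
    refine ⟨e⁻¹, inv_ne_zero he, fun τ => ?_⟩
    rw [zpow_neg, h1, map_inv₀]
  step := fun F _ _ _ ι _ Y _ _ n m hrel t h =>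
    pow_step hPF hM hwt hK F trivial ι Y (fun _ => trivial) n m hrel t h

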