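import Mathlib

/-! Linear algebra for the periods over a number field. -/

set_option autoImplicit false
set_option linter.unusedSectionVars false

namespace Pool.Agent.Q5.DP

open Module
open scoped Classical

section
variable {E V X : Type} [Field E] [CharZero E] [AddCommGroup V] [Module E V] [Fintype X] {d : ℕ}

/-- the functions with `f (s x) = c (f x)` -/
def plusX (c : V →ₗ[E] V) (s : X → X) : Submodule E (X → V) where
  carrier := {f | ∀ x, f (s x) = c (f x)}
  add_mem' := by
    intro f g hf hg x
    change f (s x) + g (s x) = c (f x + g x)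
    rw [hf x, hg x, map_add]
  zero_mem' := fun x => (map_zero c).symm
  smul_mem' := by
    intro a f hf x
    change a • f (s x) = c (a • f x)
    rw [hf x, map_smul]

theorem mem_plusX {c : V →ₗ[E] V} {s : X → X} {f : X → V} :
    f ∈ plusX c s ↔ ∀ x, f (s x) = c (f x) := Iff.rfl

/-- the projection -/
noncomputable def pr (c : V →ₗ[E] V) (hc : ∀ v, c (c v) = v) (ε : E) (hε : ε = 1 ∨ ε = -1) :
    V →ₗ[E] Module.End.eigenspace c ε :=
  LinearMap.codRestrict _ ((2⁻¹ : E) • (LinearMap.id + ε • c)) (by
    intro v
    rw [Module.End.mem_eigenspace_iff]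
    simp only [LinearMap.smul_apply, LinearMap.add_apply, LinearMap.id_apply, map_smul, map_add, hc]
    rcases hε with rfl | rfl
    · rw [one_smul, one_smul, one_smul, add_comm]
    · rw [smul_comm]
      congr 1
      module)

theorem pr_apply (c : V →ₗ[E] V) (hc : ∀ v, c (c v) = v) (ε : E) (hε : ε = 1 ∨ ε = -1) (v : V) :
    (pr c hc ε hε v : V) = (2⁻¹ : E) • (v + ε • c v) := rfl

variable {c : V →ₗ[E] V} (hc : ∀ v, c (c v) = v) {s : X → X} (hs : ∀ x, s (s x) = x) {R : X → Prop}
  (r1 : ∀ x, R x ∨ R (s x)) (r2 : ∀ x, R x → R (s x) → s x = x)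
  (bp : Basis (Fin d) E (Module.End.eigenspace c 1))
  (bm : Basis (Fin d) E (Module.End.eigenspace c (-1)))

theorem pp_c (v : V) : pr c hc 1 (Or.inl rfl) (c v) = pr c hc 1 (Or.inl rfl) v := by
  apply Subtype.ext
  rw [pr_apply, pr_apply, hc]
  module

theorem pm_c (v : V) : pr c hc (-1) (Or.inr rfl) (c v) = -pr c hc (-1) (Or.inr rfl) v := by
  apply Subtype.ext
  rw [Submodule.coe_neg, pr_apply, pr_apply, hc]
  module

theorem split (v : V) : ((pr c hc 1 (Or.inl rfl) v : V)) + (pr c hc (-1) (Or.inr rfl) v : V) = v := by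
  rw [pr_apply, pr_apply]
  have h : (2⁻¹ : E) • (v + (1 : E) • c v) + (2⁻¹ : E) • (v + (-1 : E) • c v) =
      ((2⁻¹ : E) * 2) • v := by module
  rw [h, inv_mul_cancel₀ two_ne_zero, one_smul]

theorem pp_of {v : V} (hv : v ∈ Module.End.eigenspace c (1 : E)) :
    pr c hc 1 (Or.inl rfl) v = ⟨v, hv⟩ := by
  apply Subtype.ext
  rw [pr_apply]
  have h1 := Module.End.mem_eigenspace_iff.1 hv
  rw [h1]
  have h : (2⁻¹ : E) • (v + (1 : E) • (1 : E) • v) = ((2⁻¹ : E) * 2) • v := by module
  rw [h, inv_mul_cancel₀ two_ne_zero, one_smul]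

theorem pm_of {v : V} (hv : v ∈ Module.End.eigenspace c (-1 : E)) :
    pr c hc (-1) (Or.inr rfl) v = ⟨v, hv⟩ := by
  apply Subtype.ext
  rw [pr_apply]
  have h1 := Module.End.mem_eigenspace_iff.1 hv
  rw [h1]
  have h : (2⁻¹ : E) • (v + (-1 : E) • (-1 : E) • v) = ((2⁻¹ : E) * 2) • v := by module
  rw [h, inv_mul_cancel₀ two_ne_zero, one_smul]

theorem pp_of' {v : V} (hv : v ∈ Module.End.eigenspace c (-1 : E)) :
    pr c hc 1 (Or.inl rfl) v = 0 := by
  apply Subtype.ext
  rw [pr_apply]
  have h1 := Module.End.mem_eigenspace_iff.1 hv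
  rw [h1, Submodule.coe_zero]
  module

theorem pm_of' {v : V} (hv : v ∈ Module.End.eigenspace c (1 : E)) :
    pr c hc (-1) (Or.inr rfl) v = 0 := by
  apply Subtype.ext
  rw [pr_apply]
  have h1 := Module.End.mem_eigenspace_iff.1 hv
  rw [h1, Submodule.coe_zero]
  module

/-- the component at `x` -/
noncomputable def hh (R : X → Prop) (f : X → V) (x : X) : V :=
  if R x then (pr c hc 1 (Or.inl rfl) (f x) : V) else (pr c hc (-1) (Or.inr rfl) (f x) : V)

/-- the coordinates -/
noncomputable def phi (R : X → Prop) : plusX c s →ₗ[E] (Fin d × X → E) where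
  toFun f κ := if R κ.2 then bp.repr (pr c hc 1 (Or.inl rfl) (f.1 κ.2)) κ.1
    else bm.repr (pr c hc (-1) (Or.inr rfl) (f.1 κ.2)) κ.1
  map_add' f g := by
    funext κ
    by_cases h : R κ.2
    · simp [h]
    · simp [h]
  map_smul' a f := by
    funext κ
    by_cases h : R κ.2
    · simp [h]
    · simp [h]

theorem phi_pos {R : X → Prop} (f : plusX c s) {x : X} (hx : R x) (k : Fin d) :
    phi hc bp bm R f (k, x) = bp.repr (pr c hc 1 (Or.inl rfl) (f.1 x)) k := if_pos hx

theorem phi_neg {R : X → Prop} (f : plusX c s) {x : X} (hx : ¬ R x) (k : Fin d) :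
    phi hc bp bm R f (k, x) = bm.repr (pr c hc (-1) (Or.inr rfl) (f.1 x)) k := if_neg hx

theorem pm_fixed {f : X → V} (hf : f ∈ plusX c s) {x : X} (hx : s x = x) :
    pr c hc (-1) (Or.inr rfl) (f x) = 0 := by
  apply pm_of'
  rw [Module.End.mem_eigenspace_iff, one_smul, ← hf x, hx]

include hs r1 r2 in
theorem phi_inj {f : plusX c s} (h : phi hc bp bm R f = 0) : f = 0 := by
  have hp : ∀ x, R x → pr c hc 1 (Or.inl rfl) (f.1 x) = 0 := by
    intro x hx
    apply bp.repr.injective
    rw [map_zero]
    ext k
    have h1 := congrFun h (k, x)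
    rw [phi_pos hc bp bm f hx] at h1
    exact h1
  have hm : ∀ x, ¬ R x → pr c hc (-1) (Or.inr rfl) (f.1 x) = 0 := by
    intro x hx
    apply bm.repr.injective
    rw [map_zero]
    ext k
    have h1 := congrFun h (k, x)
    rw [phi_neg hc bp bm f hx] at h1
    exact h1
  apply Subtype.ext
  funext x
  have h2 := split hc (f.1 x)
  have h3 : pr c hc 1 (Or.inl rfl) (f.1 x) = 0 := by
    by_cases hx : R x
    · exact hp x hx
    · have h4 := hp (s x) ((r1 x).resolve_left hx)
      rwa [f.2 x, pp_c] at h4
  have h4 : pr c hc (-1) (Or.inr rfl) (f.1 x) = 0 := by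
    by_cases hx : s x = x
    · exact pm_fixed hc f.2 hx
    · by_cases hR : R x
      · have h5 := hm (s x) fun h6 => hx (r2 x hR h6)
        rw [f.2 x, pm_c, neg_eq_zero] at h5
        exact h5
      · exact hm x hR
  rw [h3, h4, Submodule.coe_zero, Submodule.coe_zero, add_zero] at h2
  exact h2.symm

include hs r1 r2 in
theorem phi_surj (a : Fin d × X → E) : ∃ f : plusX c s, phi hc bp bm R f = a := by
  let u : X → V := fun x => (∑ k, a (k, if R x then x else s x) • bp k :
    Module.End.eigenspace c (1 : E))
  let w : X → V := fun x => if s x = x then 0 else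
    if R x then -(∑ k, a (k, s x) • bm k : Module.End.eigenspace c (-1 : E))
    else (∑ k, a (k, x) • bm k : Module.End.eigenspace c (-1 : E))
  have hu : ∀ x, u x ∈ Module.End.eigenspace c (1 : E) := fun x => Subtype.property _
  have hw : ∀ x, w x ∈ Module.End.eigenspace c (-1 : E) := by
    intro x
    change (if s x = x then _ else _) ∈ _
    split_ifs
    · exact zero_mem _
    · exact neg_mem (Subtype.property _)
    · exact Subtype.property _
  have hus : ∀ x, u (s x) = u x := by
    intro x
    change ((∑ k, a (k, if R (s x) then s x else s (s x)) • bp k :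
      Module.End.eigenspace c (1 : E)) : V) = (∑ k, a (k, if R x then x else s x) • bp k :
      Module.End.eigenspace c (1 : E))
    have h1 : (if R (s x) then s x else s (s x)) = if R x then x else s x := by
      rw [hs]
      by_cases h2 : R x
      · by_cases h3 : R (s x)
        · rw [if_pos h3, if_pos h2, r2 x h2 h3]
        · rw [if_neg h3, if_pos h2]
      · rw [if_pos ((r1 x).resolve_left h2), if_neg h2]
    rw [h1]
  have hws : ∀ x, w (s x) = -w x := by
    intro x
    by_cases hx : s x = x
    · have h1 : w x = 0 := if_pos hx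
      rw [hx, h1, neg_zero]
    · have hx' : ¬ s (s x) = s x := by
        rw [hs]
        exact fun h => hx h.symm
      by_cases hR : R x
      · have hR' : ¬ R (s x) := fun h => hx (r2 x hR h)
        have h1 : w x = -(∑ k, a (k, s x) • bm k : Module.End.eigenspace c (-1 : E)) := by
          change (if s x = x then _ else _) = _
          rw [if_neg hx, if_pos hR]
        have h2 : w (s x) = (∑ k, a (k, s x) • bm k : Module.End.eigenspace c (-1 : E)) := by
          change (if s (s x) = s x then _ else _) = _
          rw [if_neg hx', if_neg hR']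
        rw [h1, h2, neg_neg]
      · have hR' : R (s x) := (r1 x).resolve_left hR
        have h1 : w x = (∑ k, a (k, x) • bm k : Module.End.eigenspace c (-1 : E)) := by
          change (if s x = x then _ else _) = _
          rw [if_neg hx, if_neg hR]
        have h2 : w (s x) = -(∑ k, a (k, x) • bm k : Module.End.eigenspace c (-1 : E)) := by
          change (if s (s x) = s x then _ else _) = _
          rw [if_neg hx', if_pos hR', hs]
        rw [h1, h2]
  refine ⟨⟨fun x => u x + w x, fun x => ?_⟩, ?_⟩
  · have h1 := Module.End.mem_eigenspace_iff.1 (hu x)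
    have h2 := Module.End.mem_eigenspace_iff.1 (hw x)
    change u (s x) + w (s x) = c (u x + w x)
    rw [map_add, h1, h2, hus, hws]
    module
  · funext κ
    obtain ⟨k, x⟩ := κ
    by_cases hR : R x
    · rw [phi_pos hc bp bm _ hR]
      change bp.repr (pr c hc 1 (Or.inl rfl) (u x + w x)) k = _
      rw [map_add, pp_of hc (hu x), pp_of' hc (hw x), add_zero]
      have h1 : (⟨u x, hu x⟩ : Module.End.eigenspace c (1 : E)) = ∑ k, a (k, x) • bp k := by
        apply Subtype.ext
        change ((∑ k, a (k, if R x then x else s x) • bp k :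
          Module.End.eigenspace c (1 : E)) : V) = _
        rw [if_pos hR]
      rw [h1, Basis.repr_sum_self]
    · have hx : ¬ s x = x := fun h => hR (by
        have := (r1 x).resolve_left hR
        rwa [h] at this)
      rw [phi_neg hc bp bm _ hR]
      change bm.repr (pr c hc (-1) (Or.inr rfl) (u x + w x)) k = _
      rw [map_add, pm_of hc (hw x), pm_of' hc (hu x), zero_add]
      have h1 : (⟨w x, hw x⟩ : Module.End.eigenspace c (-1 : E)) = ∑ k, a (k, x) • bm k := by
        apply Subtype.ext
        change (if s x = x then _ else _) = _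
        rw [if_neg hx, if_neg hR]
      rw [h1, Basis.repr_sum_self]

/-- the equivalence -/
noncomputable def phiE (R : X → Prop) (r1 : ∀ x, R x ∨ R (s x))
    (r2 : ∀ x, R x → R (s x) → s x = x) : plusX c s ≃ₗ[E] (Fin d × X → E) :=
  LinearEquiv.ofBijective (phi hc bp bm R) ⟨by
    rw [← LinearMap.ker_eq_bot, LinearMap.ker_eq_bot']
    exact fun f hf => phi_inj hc hs r1 r2 bp bm hf,
    fun a => phi_surj hc hs r1 r2 bp bm a⟩

/-- the matrix `Q` -/
noncomputable def QQ (s : X → X) (R : X → Prop) : Matrix X X ℤ := fun x y =>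
  (if (if R x then x else s x) = y then 1 else 0) + (if R x then 0 else if x = y then 1 else 0) -
    (if R (s x) then 0 else if s x = y then 1 else 0)

theorem QQ_sum {A : Type} [AddCommGroup A] (x : X) (h : X → A) :
    ∑ y, QQ s R x y • h y = h (if R x then x else s x) + (if R x then 0 else h x) -
      (if R (s x) then 0 else h (s x)) := by
  unfold QQ
  simp only [sub_smul, add_smul, Finset.sum_sub_distrib, Finset.sum_add_distrib]
  congr 1
  · congr 1
    · simp
    · split_ifs
      · simp
      · simp
  · split_ifs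
    · simp
    · simp

include hs r1 r2 in
theorem QQ_det : (QQ s R).det ≠ 0 := by
  intro h0
  obtain ⟨v, hv, hv0⟩ := Matrix.exists_mulVec_eq_zero_iff.2 h0
  apply hv
  have h1 : ∀ x, v (if R x then x else s x) + (if R x then 0 else v x) -
      (if R (s x) then 0 else v (s x)) = 0 := by
    intro x
    rw [← QQ_sum (A := ℤ) x v]
    have h2 := congrFun hv0 x
    simpa [Matrix.mulVec, dotProduct] using h2
  funext x
  change v x = 0
  by_cases hx : s x = x
  · have hR : R x := by
      rcases r1 x with h | h
      · exact h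
      · rwa [hx] at h
    have h2 := h1 x
    rw [hx, if_pos hR, if_pos hR] at h2
    simpa using h2
  · by_cases hR : R x
    · have hR' : ¬ R (s x) := fun h => hx (r2 x hR h)
      have h2 := h1 x
      have h3 := h1 (s x)
      rw [hs] at h3
      rw [if_pos hR, if_pos hR, if_neg hR'] at h2
      rw [if_neg hR', if_neg hR', if_pos hR] at h3
      linarith
    · have hR' : R (s x) := (r1 x).resolve_left hR
      have h2 := h1 x
      have h3 := h1 (s x)
      rw [hs] at h3
      rw [if_neg hR, if_neg hR, if_pos hR'] at h2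
      rw [if_pos hR', if_pos hR', if_neg hR] at h3
      linarith

include hs r1 r2 in
/-- the reconstruction -/
theorem QQ_hh {f : X → V} (hf : f ∈ plusX c s) (x : X) : ∑ y, QQ s R x y • hh hc R f y = f x := by
  rw [QQ_sum]
  have hpm : (if R x then (0 : V) else hh hc R f x) - (if R (s x) then 0 else hh hc R f (s x)) =
      (pr c hc (-1) (Or.inr rfl) (f x) : V) := by
    by_cases hR : R x
    · by_cases hR' : R (s x)
      · rw [if_pos hR, if_pos hR', pm_fixed hc hf (r2 x hR hR'), sub_zero]
        rfl
      · rw [if_pos hR, if_neg hR']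
        unfold hh
        rw [if_neg hR', hf x, pm_c, Submodule.coe_neg, sub_neg_eq_add, zero_add]
    · have hR' : R (s x) := (r1 x).resolve_left hR
      rw [if_neg hR, if_pos hR', sub_zero]
      unfold hh
      rw [if_neg hR]
  have hpp : hh hc R f (if R x then x else s x) = (pr c hc 1 (Or.inl rfl) (f x) : V) := by
    unfold hh
    by_cases hR : R x
    · rw [if_pos hR, if_pos hR]
    · have hR' : R (s x) := (r1 x).resolve_left hR
      rw [if_neg hR, if_pos hR', hf x, pp_c]
  rw [add_sub_assoc, hpm, hpp]
  exact split hc (f x)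

end

end Pool.Agent.Q5.DP
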