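import Pool.Agent.Q5.DP.Fam

/-! Ratios of the values of an L-function at two integers, over number fields. -/

set_option autoImplicit false
set_option linter.unusedSectionVars false

namespace Pool.Agent.Q5.DP

open Module NumberField IsDedekindDomain Filter Pool.Agent.W353.NF Pool.Agent.W401.Cheb
  Pool.Agent.Q5.BR
open Pool.Agent.Q5.SO (Hyper)
open scoped Classical

/-- The Frobenius polynomials of a motive over `ℚ` with coefficients in `E`: weight, rank, and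
`P p f = det (1 - Frob_p ^ f X)`. -/
structure FrobData (E : Type) [Field E] where
  wt : ℤ
  rank : ℕ
  P : ℕ → ℕ → Polynomial E

section
variable {E : Type} [Field E]

/-- purity -/
def FrobData.Pure (D : FrobData E) : Prop :=
  ∀ᶠ p : ℕ in Filter.cofinite, p.Prime → ∀ τ : E →+* ℂ, ∃ α : Fin D.rank → ℂ,
    (∀ j, ‖α j‖ = (p : ℝ) ^ ((D.wt : ℝ) / 2)) ∧
    ∀ f, (D.P p f).map τ = ∏ j, (1 - Polynomial.C (α j ^ f) * Polynomial.X)

/-- the values of the L-function over `F` at `s = k` -/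
def ValueAt (D : FrobData E) (F : Type) [Field F] [NumberField F] (k : ℕ) (ℓ : (E →+* ℂ) → ℂ) :
    Prop :=
  ∃ b : IsDedekindDomain.HeightOneSpectrum (𝓞 F) → E,
    (∀ᶠ v in Filter.cofinite, ∀ p f : ℕ, p.Prime → Ideal.absNorm v.asIdeal = p ^ f →
      b v = (D.P p f).eval (((p ^ f : ℕ) : E) ^ k)⁻¹) ∧ (∀ v, b v ≠ 0) ∧
    ∀ τ, ℓ τ = ∏' v, (τ (b v))⁻¹

/-- the ratio of the values at `s = k` and `s = 0` over `F` is in `E X ^ [F : ℚ] Y ^ r₁(F)` -/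
def Ratio (D : FrobData E) (k : ℕ) (X Y : (E →+* ℂ) → ℂ) (F : Type) [Field F] [NumberField F] :
    Prop :=
  ∀ ℓ₀ ℓ : (E →+* ℂ) → ℂ, ValueAt D F 0 ℓ₀ → ValueAt D F k ℓ → ∃ e : E, ∀ τ,
    ℓ τ = τ e * (X τ ^ finrank ℚ F * Y τ ^ InfinitePlace.nrRealPlaces F) * ℓ₀ τ

/-- the twist by `k` -/
noncomputable def FrobData.mot (D : FrobData E) (k : ℕ) : Mot E where
  wt := D.wt - 2 * k
  d := 0
  V := Fin D.rank → E
  Finf := LinearMap.id
  per _ _ _ := 0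
  P p f := (D.P p f).comp (Polynomial.C (((p ^ f : ℕ) : E) ^ k)⁻¹ * Polynomial.X)

theorem mot_wt {D : FrobData E} (h : D.wt ≤ -3) (k : ℕ) : (D.mot k).wt ≤ -3 := by
  change D.wt - 2 * (k : ℤ) ≤ -3
  have : (0 : ℤ) ≤ k := Int.natCast_nonneg k
  omega

theorem mot_value {D : FrobData E} {F : Type} [Field F] [NumberField F] {k : ℕ}
    {ℓ : (E →+* ℂ) → ℂ} : ValueAt D F k ℓ ↔ IsValue (D.mot k) F ℓ := by
  have h : ∀ p f, ((D.mot k).P p f).eval 1 = (D.P p f).eval (((p ^ f : ℕ) : E) ^ k)⁻¹ := by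
    intro p f
    change ((D.P p f).comp (Polynomial.C (((p ^ f : ℕ) : E) ^ k)⁻¹ * Polynomial.X)).eval 1 = _
    rw [Polynomial.eval_comp]
    simp
  unfold ValueAt IsValue
  simp only [h]

theorem mot_pure [CharZero E] {D : FrobData E} (h : D.Pure) (k : ℕ) : IsPure (D.mot k) := by
  unfold IsPure
  filter_upwards [h] with p hp hpr τ
  obtain ⟨α, h1, h2⟩ := hp hpr τ
  have hfin : finrank E (D.mot k).V = D.rank := by
    change finrank E (Fin D.rank → E) = D.rank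
    simp
  have hp0 : (0 : ℝ) < p := by exact_mod_cast hpr.pos
  rw [hfin]
  refine ⟨fun j => α j * ((p : ℂ) ^ k)⁻¹, fun j => ?_, fun f => ?_⟩
  · rw [norm_mul, h1, norm_inv, norm_pow, Complex.norm_natCast, ← Real.rpow_natCast,
      ← Real.rpow_neg hp0.le, ← Real.rpow_add hp0]
    congr 1
    change (D.wt : ℝ) / 2 + -(k : ℝ) = ((D.wt - 2 * (k : ℤ) : ℤ) : ℝ) / 2
    push_cast
    ring
  · change ((D.P p f).comp (Polynomial.C (((p ^ f : ℕ) : E) ^ k)⁻¹ * Polynomial.X)).map τ = _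
    rw [Polynomial.map_comp, h2, Polynomial.prod_comp]
    refine Finset.prod_congr rfl fun j _ => ?_
    simp only [Polynomial.sub_comp, Polynomial.one_comp, Polynomial.mul_comp, Polynomial.C_comp,
      Polynomial.X_comp, Polynomial.map_mul, Polynomial.map_C, Polynomial.map_X]
    rw [← mul_assoc, ← Polynomial.C_mul]
    congr 3
    rw [map_inv₀, map_pow, map_natCast]
    push_cast
    rw [mul_pow, inv_pow, ← pow_mul, ← pow_mul, mul_comm k f]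

end

section
variable {E : Type} [Field E] [NumberField E] {D : FrobData E} {k : ℕ} {X Y : (E →+* ℂ) → ℂ}
variable {K : Type} [Field K] [NumberField K]

/-- the ratio, with an exponent -/
def RatioP (D : FrobData E) (k : ℕ) (X Y : (E →+* ℂ) → ℂ) (F : Type) [Field F] [NumberField F]
    (t : ℤ) : Prop :=
  ∀ ℓ₀ ℓ : (E →+* ℂ) → ℂ, ValueAt D F 0 ℓ₀ → ValueAt D F k ℓ → ∃ e : E, e ≠ 0 ∧ ∀ τ,
    (ℓ τ / ((X τ ^ finrank ℚ F * Y τ ^ InfinitePlace.nrRealPlaces F) * ℓ₀ τ)) ^ t = τ e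

theorem nonzero (hD : D.Pure) (hwt : D.wt ≤ -3) (hX : ∀ τ, X τ ≠ 0) (hY : ∀ τ, Y τ ≠ 0)
    {F : Type} [Field F] [NumberField F] {ℓ₀ : (E →+* ℂ) → ℂ} (h : ValueAt D F 0 ℓ₀) (τ : E →+* ℂ) :
    (X τ ^ finrank ℚ F * Y τ ^ InfinitePlace.nrRealPlaces F) * ℓ₀ τ ≠ 0 :=
  mul_ne_zero (mul_ne_zero (pow_ne_zero _ (hX τ)) (pow_ne_zero _ (hY τ)))
    (value_ne (mot_pure hD 0) (mot_wt hwt 0) (mot_value.1 h) τ)

theorem ratioP_one (hD : D.Pure) (hwt : D.wt ≤ -3) (hX : ∀ τ, X τ ≠ 0) (hY : ∀ τ, Y τ ≠ 0)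
    (F : Type) [Field F] [NumberField F] : RatioP D k X Y F 1 ↔ Ratio D k X Y F := by
  constructor
  · intro h ℓ₀ ℓ h0 hk
    obtain ⟨e, -, he⟩ := h ℓ₀ ℓ h0 hk
    refine ⟨e, fun τ => ?_⟩
    rw [← he, zpow_one, mul_assoc, div_mul_cancel₀ _ (nonzero hD hwt hX hY h0 τ)]
  · intro h ℓ₀ ℓ h0 hk
    obtain ⟨e, he⟩ := h ℓ₀ ℓ h0 hk
    refine ⟨e, ?_, fun τ => ?_⟩
    · rintro rfl
      obtain ⟨τ⟩ : Nonempty (E →+* ℂ) := inferInstance
      have h1 := he τ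
      rw [map_zero, zero_mul, zero_mul] at h1
      exact value_ne (mot_pure hD k) (mot_wt hwt k) (mot_value.1 hk) τ h1
    · rw [zpow_one, he, mul_assoc, mul_div_cancel_right₀ _ (nonzero hD hwt hX hY h0 τ)]

theorem card_real (F : Type) [Field F] [NumberField F] :
    Nat.card {σ : F →+* ℂ // ComplexEmbedding.conjugate σ = σ} = InfinitePlace.nrRealPlaces F := by
  rw [← InfinitePlace.card_real_embeddings, ← Nat.card_eq_fintype_card]
  rfl

theorem ratio_step (hD : D.Pure) (hwt : D.wt ≤ -3) (hX : ∀ τ, X τ ≠ 0) (hY : ∀ τ, Y τ ≠ 0)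
    (hK : finrank ℚ K = 1)
    (F : Type) [Field F] [NumberField F]
    [Algebra K F] (ι : Type) [Fintype ι] (Z : ι → Ext F)
    [∀ j, Algebra K (Z j).F] [∀ j, IsScalarTower K F (Z j).F] (n : ι → ℤ) (m : ℤ)
    (hrel : ∀ σ : GK F, ∑ j, n j * (fixn F (Z j).F σ : ℤ) = m) (t : ℤ)
    (h : ∀ j, RatioP D k X Y (Z j).F t) : RatioP D k X Y F (m * t) := by
  intro ℓ₀ ℓ h0 hk
  choose ℓ₀' hℓ₀' using fun j => exists_value (mot_pure hD 0) (mot_wt hwt 0) (Z j).F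
  choose ℓ' hℓ' using fun j => exists_value (mot_pure hD k) (mot_wt hwt k) (Z j).F
  choose e he he' using fun j => h j (ℓ₀' j) (ℓ' j) (mot_value.2 (hℓ₀' j)) (mot_value.2 (hℓ' j))
  let Z' : Option ι → Ext F := fun o => o.elim (Ext.mk F) Z
  let n' : Option ι → ℤ := fun o => o.elim (-m) n
  have hrel' : Rel Z' n' := by
    intro σ
    rw [Fintype.sum_option]
    change (-m) * (fixn F F σ : ℤ) + ∑ j, n j * (fixn F (Z j).F σ : ℤ) = 0
    rw [hrel σ, fixn_self]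
    push_cast
    ring
  let ℓ₀'' : Option ι → (E →+* ℂ) → ℂ := fun o => o.elim ℓ₀ ℓ₀'
  obtain ⟨e₀, he₀, h1⟩ := value_rel (mot_pure hD 0) (mot_wt hwt 0) hrel' (ℓ := ℓ₀'') (by
    rintro (_ | j)
    · exact mot_value.1 h0
    · exact hℓ₀' j)
  let ℓ'' : Option ι → (E →+* ℂ) → ℂ := fun o => o.elim ℓ ℓ'
  obtain ⟨e₁, he₁, h2⟩ := value_rel (mot_pure hD k) (mot_wt hwt k) hrel' (ℓ := ℓ'') (by
    rintro (_ | j)
    · exact mot_value.1 hk
    · exact hℓ' j)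
  -- the degrees and the real places
  let _ : ∀ o : Option ι, Algebra K (Z' o).F := fun o => match o with
    | none => (inferInstance : Algebra K F)
    | some j => (inferInstance : Algebra K (Z j).F)
  have hrelK : ∀ g : GK K, ∑ o, n' o * (fixn K (Z' o).F g : ℤ) = 0 := by
    intro g
    rw [Fintype.sum_option]
    change (-m) * (fixn K F g : ℤ) + ∑ j, n j * (fixn K (Z j).F g : ℤ) = 0
    rw [VL.rel_up hrel g]
    ring
  have h3 := deg_rel hK hrelK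
  have h4 := real_rel hK hrelK
  rw [Fintype.sum_option] at h3 h4
  change (-m) * (Nat.card (F →+* ℂ) : ℤ) + ∑ j, n j * (Nat.card ((Z j).F →+* ℂ) : ℤ) = 0 at h3
  change (-m) * (Nat.card {σ : F →+* ℂ // ComplexEmbedding.conjugate σ = σ} : ℤ) +
    ∑ j, n j * (Nat.card {σ : (Z j).F →+* ℂ // ComplexEmbedding.conjugate σ = σ} : ℤ) = 0 at h4
  have hcard : ∀ (F : Type) [Field F] [NumberField F], Nat.card (F →+* ℂ) = finrank ℚ F := by
    intro F _ _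
    rw [Nat.card_eq_fintype_card, NumberField.Embeddings.card]
  simp only [hcard] at h3
  simp only [card_real] at h4
  refine ⟨(e₀ / e₁) ^ t * ∏ j, (e j) ^ (n j), mul_ne_zero (zpow_ne_zero _ (div_ne_zero he₀ he₁))
    (Finset.prod_ne_zero_iff.2 fun j _ => zpow_ne_zero _ (he j)), fun τ => ?_⟩
  have h5 := h1 τ
  have h6 := h2 τ
  rw [Fintype.prod_option] at h5 h6
  change (ℓ₀ τ) ^ (-m) * ∏ j, (ℓ₀' j τ) ^ (n j) = τ e₀ at h5
  change (ℓ τ) ^ (-m) * ∏ j, (ℓ' j τ) ^ (n j) = τ e₁ at h6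
  have hℓ₀0 : ℓ₀ τ ≠ 0 := value_ne (mot_pure hD 0) (mot_wt hwt 0) (mot_value.1 h0) τ
  have hℓ0 : ℓ τ ≠ 0 := value_ne (mot_pure hD k) (mot_wt hwt k) (mot_value.1 hk) τ
  have hτ0 : τ e₀ ≠ 0 := fun h0 => he₀ (τ.injective (by rw [h0, map_zero]))
  have hτ1 : τ e₁ ≠ 0 := fun h0 => he₁ (τ.injective (by rw [h0, map_zero]))
  set B : ∀ (F : Type) [Field F] [NumberField F], ℂ := fun F _ _ =>
    X τ ^ finrank ℚ F * Y τ ^ InfinitePlace.nrRealPlaces F with hB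
  have hB0 : ∀ (F : Type) [Field F] [NumberField F], B F ≠ 0 := fun F _ _ =>
    mul_ne_zero (pow_ne_zero _ (hX τ)) (pow_ne_zero _ (hY τ))
  have h7 : ∏ j, B (Z j).F ^ (n j) = B F ^ m := by
    have h8 : ∀ j, B (Z j).F ^ (n j) = X τ ^ (n j * (finrank ℚ (Z j).F : ℤ)) *
        Y τ ^ (n j * (InfinitePlace.nrRealPlaces (Z j).F : ℤ)) := by
      intro j
      rw [hB, mul_zpow, ← zpow_natCast, ← zpow_natCast, ← zpow_mul, ← zpow_mul,
        mul_comm (n j), mul_comm (n j)]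
    rw [Finset.prod_congr rfl fun j _ => h8 j, Finset.prod_mul_distrib, zpow_prod _ _ (hX τ),
      zpow_prod _ _ (hY τ)]
    have h9 : ∑ j, n j * (finrank ℚ (Z j).F : ℤ) = m * finrank ℚ F := by linarith
    have h10 : ∑ j, n j * (InfinitePlace.nrRealPlaces (Z j).F : ℤ) =
        m * InfinitePlace.nrRealPlaces F := by linarith
    rw [h9, h10, hB, mul_zpow, ← zpow_natCast, ← zpow_natCast, ← zpow_mul, ← zpow_mul,
      mul_comm m, mul_comm m]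
  have h8 : ∏ j, (ℓ' j τ / (B (Z j).F * ℓ₀' j τ)) ^ (n j) =
      (∏ j, (ℓ' j τ) ^ (n j)) / ((∏ j, B (Z j).F ^ (n j)) * ∏ j, (ℓ₀' j τ) ^ (n j)) := by
    rw [← Finset.prod_mul_distrib, ← Finset.prod_div_distrib]
    refine Finset.prod_congr rfl fun j _ => ?_
    rw [div_zpow, mul_zpow]
  have h9 : ∏ j, (ℓ' j τ) ^ (n j) = τ e₁ * (ℓ τ) ^ m := by
    rw [← h6, zpow_neg]
    field_simp
  have h10 : ∏ j, (ℓ₀' j τ) ^ (n j) = τ e₀ * (ℓ₀ τ) ^ m := by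
    rw [← h5, zpow_neg]
    field_simp
  have h11 : (ℓ τ / (B F * ℓ₀ τ)) ^ m = (τ e₀ / τ e₁) *
      ∏ j, (ℓ' j τ / (B (Z j).F * ℓ₀' j τ)) ^ (n j) := by
    rw [h8, h9, h10, h7, div_zpow, mul_zpow]
    have h12 := zpow_ne_zero m hℓ₀0
    have h13 := zpow_ne_zero m (hB0 F)
    field_simp
  change (ℓ τ / (B F * ℓ₀ τ)) ^ (m * t) = _
  rw [zpow_mul, h11, mul_zpow, map_mul, map_zpow₀, map_div₀, map_prod]
  congr 1
  rw [← Finset.prod_zpow]
  refine Finset.prod_congr rfl fun j _ => ?_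
  have h12 := he' j τ
  change (ℓ' j τ / (B (Z j).F * ℓ₀' j τ)) ^ t = τ (e j) at h12
  rw [← zpow_mul, mul_comm (n j) t, zpow_mul, h12, map_zpow₀]

theorem ratio_isLaw (hD : D.Pure) (hwt : D.wt ≤ -3) (hX : ∀ τ, X τ ≠ 0) (hY : ∀ τ, Y τ ≠ 0)
    (hK : finrank ℚ K = 1) : VL.IsLaw (K := K) (fun F _ _ _ t => RatioP D k X Y F t) where
  zero := fun F _ _ _ ℓ c _ _ => ⟨1, one_ne_zero, fun τ => by rw [zpow_zero, map_one]⟩
  add := by
    intro F _ _ _ t u ht hu ℓ c hℓ hc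
    obtain ⟨e, he, h1⟩ := ht ℓ c hℓ hc
    obtain ⟨e', he', h2⟩ := hu ℓ c hℓ hc
    refine ⟨e * e', mul_ne_zero he he', fun τ => ?_⟩
    rw [zpow_add₀ (div_ne_zero (value_ne (mot_pure hD k) (mot_wt hwt k) (mot_value.1 hc) τ)
      (nonzero hD hwt hX hY hℓ τ)), h1, h2, map_mul]
  neg := by
    intro F _ _ _ t ht ℓ c hℓ hc
    obtain ⟨e, he, h1⟩ := ht ℓ c hℓ hc
    refine ⟨e⁻¹, inv_ne_zero he, fun τ => ?_⟩
    rw [zpow_neg, h1, map_inv₀]
  step := fun F _ _ _ ι _ Z _ _ n m hrel t h =>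
    ratio_step hD hwt hX hY hK F ι Z n m hrel t h

theorem ratio_hyper (hD : D.Pure) (hwt : D.wt ≤ -3) (hX : ∀ τ, X τ ≠ 0) (hY : ∀ τ, Y τ ≠ 0)
    (L : Type) [Field L] [NumberField L] [IsGalois ℚ L]
    (h : ∀ (F : Type) [Field F] [NumberField F] [Algebra F L], Hyper (L ≃ₐ[F] L) → Ratio D k X Y F)
    (F : Type) [Field F] [NumberField F] [Algebra F L] : Ratio D k X Y F := by
  have hst : IsScalarTower ℚ F L := inferInstance
  have hgal : IsGalois F L := IsGalois.tower_top_of_isGalois ℚ F L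
  obtain ⟨ι, hι, Z, a, n, hZ, hrel⟩ := hyper_relation L F
  have h1 := ratio_step (K := ℚ) (k := k) hD hwt hX hY (finrank_self ℚ) F ι Z n 1 hrel 1 (fun j => by
    let _ := a j
    exact (ratioP_one hD hwt hX hY (Z j).F).2 (h (Z j).F (hZ j)))
  rw [one_mul] at h1
  exact (ratioP_one hD hwt hX hY F).1 h1

theorem ratio_exact (hD : D.Pure) (hwt : D.wt ≤ -3) (hX : ∀ τ, X τ ≠ 0) (hY : ∀ τ, Y τ ≠ 0)
    {𝓕 : Set (Subfield (AlgebraicClosure ℚ))}
    (h : ExactS 𝓕) (h1 : ∀ F ∈ 𝓕, ∀ [NumberField F], Ratio D k X Y F) : Ratio D k X Y ℚ := by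
  refine (ratioP_one hD hwt hX hY ℚ).1 ?_
  refine exactS_law (K := ℚ) (finrank_self ℚ) h (ratio_isLaw hD hwt hX hY (finrank_self ℚ)) ?_
  intro F hF hnf
  exact (ratioP_one hD hwt hX hY F).2 (h1 _ hF)

theorem ratio_sparse (hD : D.Pure) (hwt : D.wt ≤ -3) (hX : ∀ τ, X τ ≠ 0) (hY : ∀ τ, Y τ ≠ 0)
    {S : Set ℕ} (hS : ∀ d ∈ S, ∀ n : ℕ, 0 < n → d * n ∈ S) (hS' : ∀ g : ℕ, (∀ d ∈ S, g ∣ d) → g = 1)
    (h : ∀ (F : Type) [Field F] [NumberField F], finrank ℚ F ∈ S → Ratio D k X Y F)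
    (F : Type) [Field F] [NumberField F] : Ratio D k X Y F := by
  refine (ratioP_one hD hwt hX hY F).1 ?_
  refine VL.gen_sparse_law (K := ℚ) (ratio_isLaw hD hwt hX hY (finrank_self ℚ)) hS hS' ?_ F
  intro F' _ _ a hN
  obtain rfl : a = DivisionRing.toRatAlgebra := Subsingleton.elim _ _
  exact (ratioP_one hD hwt hX hY F').2 (h F' hN)

end

end Pool.Agent.Q5.DP
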