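import Pool.Agent.Q5.DP.Fam

/-! Motives with classes of type `(q, q)`, over totally real fields. -/

set_option autoImplicit false
set_option linter.unusedSectionVars false

namespace Pool.Agent.Q5.DP

open Module NumberField IsDedekindDomain Filter Pool.Agent.W353.NF Pool.Agent.W401.Cheb
  Pool.Agent.Q5.BR
open Pool.Agent.Q5.SO (Hyper)
open scoped Classical

section
variable {E V X : Type} [Field E] [CharZero E] [AddCommGroup V] [Module E V] [Fintype X] {d : ℕ}
variable {c : V →ₗ[E] V} {s : X → X} (hs : ∀ x, s x = x)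
  (bp : Basis (Fin d) E (Module.End.eigenspace c 1))

theorem mem_one {f : X → V} (hs : ∀ x, s x = x) (hf : f ∈ plusX c s) (x : X) :
    f x ∈ Module.End.eigenspace c (1 : E) := by
  rw [Module.End.mem_eigenspace_iff, one_smul, ← hf x, hs]

/-- the coordinates -/
noncomputable def psi : plusX c s ≃ₗ[E] (Fin d × X → E) where
  toFun f κ := bp.repr ⟨f.1 κ.2, mem_one hs f.2 κ.2⟩ κ.1
  map_add' f g := by
    funext κ
    have h : (⟨(f + g).1 κ.2, mem_one hs (f + g).2 κ.2⟩ : Module.End.eigenspace c (1 : E)) =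
        ⟨f.1 κ.2, mem_one hs f.2 κ.2⟩ + ⟨g.1 κ.2, mem_one hs g.2 κ.2⟩ := rfl
    rw [h, map_add]
    rfl
  map_smul' a f := by
    funext κ
    have h : (⟨(a • f).1 κ.2, mem_one hs (a • f).2 κ.2⟩ : Module.End.eigenspace c (1 : E)) =
        a • ⟨f.1 κ.2, mem_one hs f.2 κ.2⟩ := rfl
    rw [h, map_smul]
    rfl
  invFun a := ⟨fun x => (∑ k, a (k, x) • bp k : Module.End.eigenspace c (1 : E)), by
    intro x
    have h := Module.End.mem_eigenspace_iff.1
      (Subtype.property (∑ k, a (k, x) • bp k : Module.End.eigenspace c (1 : E)))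
    rw [one_smul] at h
    rw [h, hs]⟩
  left_inv f := by
    apply Subtype.ext
    funext x
    have h := bp.sum_repr ⟨f.1 x, mem_one hs f.2 x⟩
    exact congrArg (fun v : Module.End.eigenspace c (1 : E) => (v : V)) h
  right_inv a := by
    funext ⟨k, x⟩
    change bp.repr (∑ k, a (k, x) • bp k) k = _
    rw [Basis.repr_sum_self]

include hs in
/-- **The determinant.** -/
theorem per_det_real (b : Basis (Fin d × X) E (plusX c s)) :
    ∃ e : E, e ≠ 0 ∧ ∀ (τ : E →+* ℂ) (per : V → Fin d → ℂ), Semi τ per →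
      (Matrix.of fun (κ' κ : Fin d × X) => per ((b κ).1 κ'.2) κ'.1).det =
        τ e * ∏ _y : X, (Matrix.of fun i k => per (bp k) i).det := by
  set C : Matrix (Fin d × X) (Fin d × X) E := LinearMap.toMatrix b (Pi.basisFun E (Fin d × X))
    (psi hs bp) with hC
  have hCap : ∀ κ' κ, C κ' κ = psi hs bp (b κ) κ' := by
    intro κ' κ
    rw [hC, LinearMap.toMatrix_apply]
    rfl
  have hCdet : C.det ≠ 0 := (LinearEquiv.isUnit_det (psi hs bp) b (Pi.basisFun E _)).ne_zero
  refine ⟨C.det, hCdet, fun τ per h => ?_⟩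
  have hmat : (Matrix.of fun (κ' κ : Fin d × X) => per ((b κ).1 κ'.2) κ'.1) =
      Matrix.blockDiagonal (fun _ : X => Matrix.of fun i k => per (bp k) i) * C.map τ := by
    ext ⟨i, x⟩ κ
    rw [Matrix.mul_apply, Fintype.sum_prod_type]
    have h1 : (b κ).1 x = ∑ k, psi hs bp (b κ) (k, x) • (bp k : V) := by
      have h2 := bp.sum_repr ⟨(b κ).1 x, mem_one hs (b κ).2 x⟩
      have h3 := congrArg (fun v : Module.End.eigenspace c (1 : E) => (v : V)) h2
      simp only [Submodule.coe_sum] at h3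
      exact h3.symm
    rw [Matrix.of_apply, h1, h.sum, Finset.sum_apply]
    refine Finset.sum_congr rfl fun k _ => ?_
    rw [Finset.sum_eq_single x]
    · rw [Matrix.blockDiagonal_apply_eq, Matrix.map_apply, hCap, Matrix.of_apply, Pi.smul_apply,
        smul_eq_mul, mul_comm]
    · intro y' _ hy'
      rw [Matrix.blockDiagonal_apply_ne _ _ _ hy'.symm, zero_mul]
    · intro h2
      exact absurd (Finset.mem_univ _) h2
  rw [hmat, Matrix.det_mul, Matrix.det_blockDiagonal]
  have h7 : (C.map τ).det = τ C.det := by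
    have h6 := RingHom.map_det τ C
    rw [RingHom.mapMatrix_apply] at h6
    exact h6.symm
  rw [h7, mul_comm]

end

/-- critical motives of weight `≤ -3`; classes of type `(q, q)` are allowed -/
structure IsCriticalR {E : Type} [Field E] (M : Mot E) : Prop where
  inv : ∀ v, M.Finf (M.Finf v) = v
  semi : ∀ τ, Semi τ (M.per τ)
  iso : ∃ b : Basis (Fin M.d) E (Module.End.eigenspace M.Finf (1 : E)),
    ∀ τ, (Matrix.of fun i k => M.per τ (b k) i).det ≠ 0
  pure : IsPure M
  wt : M.wt ≤ -3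

section
variable {E : Type} [Field E] [NumberField E] {M : Mot E}

/-- **The periods over totally real fields.** -/
theorem period_formula_real (hM : IsCriticalR M) : PF M (fun F _ _ => IsTotallyReal F) := by
  obtain ⟨bp, hbp⟩ := hM.iso
  refine ⟨_, fun _ => 1, hbp, fun _ => one_ne_zero, fun F _ _ hF => ?_⟩
  have hs : ∀ x : F →+* ℂ, ComplexEmbedding.conjugate x = x := fun x =>
    IsTotallyReal.complexEmbedding_isReal x
  have hθ : Nonempty (Basis (F →+* ℂ) ℚ F) := by
    refine ⟨(Module.finBasis ℚ F).reindex (Fintype.equivOfCardEq ?_)⟩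
    rw [Fintype.card_fin, NumberField.Embeddings.card]
  constructor
  · obtain ⟨θ⟩ := hθ
    let b : Basis (Fin M.d × (F →+* ℂ)) E (plusX M.Finf (ComplexEmbedding.conjugate (K := F))) :=
      Basis.ofEquivFun (psi hs bp)
    have hdet : (TT F M.d θ).det ≠ 0 := by
      rw [TT_det]
      exact pow_ne_zero _ (delta_ne F θ)
    let C : (E →+* ℂ) → Matrix (Fin M.d × (F →+* ℂ)) (Fin M.d × (F →+* ℂ)) ℂ := fun τ =>
      (TT F M.d θ)⁻¹ * Matrix.of fun κ' κ => M.per τ ((b κ).1 κ'.2) κ'.1
    refine ⟨fun τ => (C τ).det, b, θ, fun τ => ⟨C τ, fun κ i σ => ?_, rfl⟩⟩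
    have h1 : TT F M.d θ * C τ = Matrix.of fun κ' κ => M.per τ ((b κ).1 κ'.2) κ'.1 :=
      Matrix.mul_nonsing_inv_cancel_left _ _ (isUnit_iff_ne_zero.2 hdet)
    rw [← TT_mul, h1]
    rfl
  · rintro c ⟨b, θ, hC⟩
    obtain ⟨e, he, hdet⟩ := per_det_real hs bp b
    refine ⟨e, θ, Nat.card (F →+* ℂ), 0, he, add_zero _, ?_, fun τ => ?_⟩
    · rw [zero_add]
      exact (Nat.card_congr (Equiv.subtypeUnivEquiv hs)).symm
    · obtain ⟨C, h1, h2⟩ := hC τ
      have h3 : (Matrix.of fun (κ' κ : Fin M.d × (F →+* ℂ)) => M.per τ ((b κ).1 κ'.2) κ'.1) =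
          TT F M.d θ * C := by
        ext ⟨i, σ⟩ κ
        rw [TT_mul, Matrix.of_apply, h1]
      have h4 := hdet τ (M.per τ) (hM.semi τ)
      rw [h3, Matrix.det_mul, TT_det, ← h2, Finset.prod_const, Finset.card_univ,
        ← Nat.card_eq_fintype_card] at h4
      rw [h4, pow_zero, mul_one]

/-- **The descent.** -/
theorem real_descent (hM : IsCriticalR M) (L : Type) [Field L] [NumberField L] [IsGalois ℚ L]
    [IsTotallyReal L]
    (h : ∀ (F : Type) [Field F] [NumberField F] [Algebra F L], Hyper (L ≃ₐ[F] L) → Deligne M F)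
    (F : Type) [Field F] [NumberField F] [Algebra F L] : Deligne M F := by
  have hst : IsScalarTower ℚ F L := inferInstance
  have hgal : IsGalois F L := IsGalois.tower_top_of_isGalois ℚ F L
  have hPF := period_formula_real hM
  have hreal : ∀ (F : Type) [Field F] [NumberField F] [Algebra F L], IsTotallyReal F := by
    intro F _ _ _
    have : FiniteDimensional F L := FiniteDimensional.right ℚ F L
    exact IsTotallyReal.of_algebra F L
  obtain ⟨ι, hι, Y, a, n, hY, hrel⟩ := hyper_relation L F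
  have hYr : ∀ j, IsTotallyReal (Y j).F := fun j => by
    let _ := a j
    exact hreal (Y j).F
  have h1 := pow_step (K := ℚ) hPF hM.pure hM.wt (finrank_self ℚ) F (hreal F) ι Y
    hYr n 1 hrel 1 (fun j => by
    let _ := a j
    exact (pow_one_iff hPF hM.pure hM.wt (Y j).F (hYr j)).2 (h (Y j).F (hY j)))
  rw [one_mul] at h1
  exact (pow_one_iff hPF hM.pure hM.wt F (hreal F)).1 h1

theorem real_exact (hM : IsCriticalR M) {𝓕 : Set (Subfield (AlgebraicClosure ℚ))}
    (h : ExactS 𝓕) (hr : ∀ F ∈ 𝓕, IsTotallyReal F)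
    (h1 : ∀ F ∈ 𝓕, ∀ [NumberField F], Deligne M F) : Deligne M ℚ := by
  have hPF := period_formula_real hM
  obtain ⟨ι, _, F, n, hF, hrel⟩ := exactS_relation (K := ℚ) (finrank_self ℚ) h
  have hnf : ∀ j, NumberField (F j) := fun j => h.1 _ (hF j)
  let Y : ι → Ext ℚ := fun j => @Ext.mk ℚ _ _ (F j) _ (hnf j) _
  have hYr : ∀ j, IsTotallyReal (Y j).F := fun j => hr _ (hF j)
  have h2 := pow_step (K := ℚ) hPF hM.pure hM.wt (finrank_self ℚ) ℚ inferInstance ι Y
    hYr n 1 hrel 1 (fun j =>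
      (pow_one_iff hPF hM.pure hM.wt (Y j).F (hYr j)).2 (h1 _ (hF j)))
  rw [one_mul] at h2
  exact (pow_one_iff hPF hM.pure hM.wt ℚ inferInstance).1 h2

end

end Pool.Agent.Q5.DP
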